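import Pool.Agent.H18.QGR.Stmts

set_option autoImplicit false

namespace Pool.QGR

open Pool.CGR

namespace TELAux

theorem dq_append {m : ℕ} (φ : List (Fin m) → ℂ) (i : Fin m) (w : List (Fin m)) :
    dq φ i (w ++ [i]) = (∑ k ∈ Finset.range w.length,
      if w[k]? = some i then φ (w.take k) * φ (w.drop (k + 1) ++ [i]) else 0) + φ w * φ [] := by
  unfold dq
  rw [List.length_append, List.length_singleton, Finset.sum_range_succ]
  congr 1
  · apply Finset.sum_congr rfl
    intro k hk
    rw [Finset.mem_range] at hk
    rw [List.getElem?_append_left hk, List.take_append_of_le_length hk.le,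
      List.drop_append_of_le_length (by omega)]
  · have h1 : (w ++ [i])[w.length]? = some i := by simp
    rw [if_pos h1]
    have h2 : (w ++ [i]).take w.length = w := by simp
    have h3 : (w ++ [i]).drop (w.length + 1) = [] := by
      rw [List.drop_eq_nil_iff]
      simp
    rw [h2, h3]

theorem dq_cons {m : ℕ} (φ : List (Fin m) → ℂ) (i : Fin m) (w : List (Fin m)) :
    dq φ i (i :: w) = (∑ k ∈ Finset.range w.length,
      if w[k]? = some i then φ (i :: w.take k) * φ (w.drop (k + 1)) else 0) + φ [] * φ w := by
  unfold dq
  rw [List.length_cons, Finset.sum_range_succ']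
  congr 1
  simp

end TELAux

theorem tel_thm : TELStmt := by
  intro m φ hφ w
  have h1 : ∀ i : Fin m, dq φ i (w ++ [i]) - dq φ i (i :: w) = ∑ k ∈ Finset.range w.length,
      if w[k]? = some i then (φ (w.take k) * φ (w.drop (k + 1) ++ [i]) -
        φ (i :: w.take k) * φ (w.drop (k + 1))) else 0 := by
    intro i
    rw [TELAux.dq_append, TELAux.dq_cons, mul_comm (φ w) (φ []), add_sub_add_right_eq_sub,
      ← Finset.sum_sub_distrib]
    apply Finset.sum_congr rfl
    intro k _
    split_ifs
    · rfl
    · rw [sub_zero]
  rw [Finset.sum_congr rfl (fun i _ => h1 i), Finset.sum_comm]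
  have h2 : ∀ k ∈ Finset.range w.length, (∑ i : Fin m,
      if w[k]? = some i then (φ (w.take k) * φ (w.drop (k + 1) ++ [i]) -
        φ (i :: w.take k) * φ (w.drop (k + 1))) else 0) =
      φ (w.take k) * φ (w.drop k) - φ (w.take (k + 1)) * φ (w.drop (k + 1)) := by
    intro k hk
    rw [Finset.mem_range] at hk
    have e1 : w[k]? = some w[k] := List.getElem?_eq_getElem hk
    rw [Finset.sum_eq_single w[k]]
    · rw [if_pos e1, ← hφ, List.cons_getElem_drop_succ, hφ, List.take_append_getElem]
    · intro b _ hb
      rw [if_neg]
      rw [e1]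
      intro h
      exact hb (Option.some.inj h).symm
    · intro h
      exact absurd (Finset.mem_univ _) h
  rw [Finset.sum_congr rfl h2]
  have h3 := Finset.sum_range_sub' (fun k => φ (w.take k) * φ (w.drop k)) w.length
  rw [h3]
  simp only [List.take_zero, List.drop_zero, List.take_length, List.drop_length]
  ring

end Pool.QGR
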